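import Pool.Agent.Helper97_K9.Tools

/-!
# Squad AT3: Alperin's weight conjecture for blocks with abelian defect groups and small inertial
index: definitions

`M` is a maximal ideal of the algebraic integers which contains the prime `ℓ`, `F = FF M`,
`RM M` the local ring, `rr M` its residue map.  A block `e` of `G` is a primitive central idempotent
of `F G` (`IsBlk`).  `Tp ℓ e V`: `V` is a defect group of `e`.  `Bx X b`: `b : G → F` is a block of
the subgroup `X`, extended by zero.  `br V e`: restriction of `e` to `C(V)`.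
-/

open scoped BigOperators

noncomputable section

namespace Pool.Agent.PP.T3

open Pool.Agent.Helper51_AWC Pool.Agent.Helper79_WRA Pool.Agent.PP Pool.Agent.PP.KF
open Pool.Agent.PP.K9 Pool.Agent.PP.K9.H97 Pool.Agent.PP.H75

attribute [local instance] Ideal.Quotient.field

section defs

variable {G : Type} [Group G] {F : Type} [Field F]

/-- `V` is a defect group of the block `e` of `G`, it is abelian, and `γ` is a block of the
centraliser of `V` under `e`. -/
structure Ld (ℓ : ℕ) (e : G → F) (V : Subgroup G) (γ : G → F) : Prop where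
  blk : IsBlk e
  tp : Tp ℓ e V
  ab : ∀ a ∈ V, ∀ b ∈ V, a * b = b * a
  gam : Bx (Subgroup.centralizer (V : Set G)) γ
  und : mulF (br V e) γ = γ

/-- the stabiliser of `γ` in the normaliser of `V` -/
def Tg (V : Subgroup G) (γ : G → F) : Subgroup G :=
  Subgroup.normalizer (V : Set G) ⊓ stabF γ

/-- the inertial index `|T : C(V)|` -/
def ix (V : Subgroup G) (γ : G → F) : ℕ :=
  (Subgroup.centralizer (V : Set G)).relIndex (Tg V γ)

/-- `b` is the block of the centraliser of `u ∈ V` which is under `e` and over `γ`. -/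
structure Lc (e : G → F) (V : Subgroup G) (γ : G → F) (u : G) (b : G → F) : Prop where
  blk : Bx (Cu u) b
  und : mulF (fun t : Cu u => e t) (fun t : Cu u => b t) = fun t : Cu u => b t
  gam : mulF (br V b) γ = γ

/-- the elements `u ≠ 1` of `V` which are centralised only by `C(V)` in the inertial group -/
def Rg (V : Subgroup G) (γ : G → F) (u : G) : Prop :=
  u ∈ V ∧ u ≠ 1 ∧ Tg V γ ⊓ Cu u ≤ Subgroup.centralizer (V : Set G)

/-- `y` is an `ℓ`-element -/
def El (ℓ : ℕ) (y : G) : Prop := ∃ n : ℕ, y ^ ℓ ^ n = 1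

variable (G) in
/-- `N` acts trivially on the elements of order prime to `ℓ`, and its powers act on the
`ℓ`-elements as all the numbers prime to `ℓ`. -/
structure GN (ℓ N : ℕ) : Prop where
  cop : N.Coprime (Nat.card G)
  reg : ∀ g : G, Reg ℓ g → g ^ N = g
  gen : ∀ j : ℕ, ¬ ℓ ∣ j → ∃ k : ℕ, ∀ y : G, El ℓ y → y ^ N ^ k = y ^ j
  ord : ∀ k : ℕ, 0 < k → k + 1 < ℓ → ¬ N ^ k ≡ 1 [MOD ℓ]

variable (M : Ideal (integralClosure ℤ ℂ)) [M.IsMaximal]

/-- all the characters in the idempotent `b` have degree `d` -/
def Dg (b : G → FF M) (d : ℕ) : Prop := 0 < d ∧ ∀ κ ∈ IrrE M b, κ 1 = d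

/-- `χ(w b)`, `b` in the group ring of the subgroup `C` (as a function on `G`) -/
def gv (C : Subgroup G) (w : G) (b : G → FF M) (χ : G → ℂ) : ℂ :=
  gbv C w (eh M (fun t : C => b t)) χ

/-- the number of the irreducible modular characters in `e` -/
def ln {F : Type} [Field F] (e : G → F) : ℕ := {f : G → F | f ∈ IBr F G ∧ actF e f = f}.ncard

/-- The alternating sum of the quotient `N(Q)/Q` and the image of `br_Q(e)`. -/
def YQ (ℓ : ℕ) {F : Type} [Field F] [Finite G] (e : G → F) (Q : Subgroup G) : ℤ :=
  YY ℓ (⊤ : Subgroup (Subgroup.normalizer (Q : Set G) ⧸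
      Q.subgroupOf (Subgroup.normalizer (Q : Set G))))
    (push (QuotientGroup.mk' (Q.subgroupOf (Subgroup.normalizer (Q : Set G))))
      (fun t : Subgroup.normalizer (Q : Set G) => br Q e t))

end defs

end Pool.Agent.PP.T3
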