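import Pool.Agent.AT3.Stmts2
import Pool.Agent.Helper66_ML.Stmts3

/-!
# Squad AT3, part 3: chains, the induction, the final theorem

Text: `AWC_T3.md`.  Complete proofs in the docstrings.
-/

open scoped BigOperators

noncomputable section

namespace Pool.Agent.PP.T3

open Pool.Agent.Helper51_AWC Pool.Agent.Helper79_WRA Pool.Agent.PP Pool.Agent.PP.KF
open Pool.Agent.PP.K9 Pool.Agent.PP.K9.H97 Pool.Agent.PP.H75

attribute [local instance] Ideal.Quotient.field

/-! ## 9. The blocks of `N(Q)/Q` -/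

/-- PSG: quotients by a central `ℓ`-subgroup.

Proof.  Let `f₁` be a central idempotent of `F H`.  It vanishes at the singular elements (the lift
does, or `mulF` with the class sums).  A regular `s ∈ H` has a regular preimage `s'`, and `push p`
maps the class sum of `s'` to the class sum of `s` (`s' z ∼ s'` for `z ∈ ker p` implies `z = 1`:
compare the `ℓ`-parts).  So `f₁ = push p a` for a class function `a` of `G`.  `a² - a` is in the
kernel of `push p` on the class functions, so it is nilpotent (an irreducible representation of `G`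
is trivial on `ker p`; IBN), and `a ^ ℓ ^ n` is a central idempotent of `F G` for large `n`, which is
mapped to `f₁`.  It is `e` or orthogonal to `e` after multiplication with `e`, so `f₁ push p e` is
`push p e` or `0`.  `push p e ≠ 0` as `e` is not nilpotent.  (Or by induction on the order of the
kernel from `CD2.PsbStmt`, `Helper24_D2/Psb.lean`, the case of a kernel of order `ℓ`.) -/
def PsgStmt : Prop := ∀ (ℓ : ℕ) [Fact ℓ.Prime] (F : Type) [Field F], GoodF ℓ F → ∀ (G H : Type)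
  [Group G] [Finite G] [Group H] [Finite H] (p : G →* H), Function.Surjective p →
  p.ker ≤ Subgroup.center G → IsPGroup ℓ p.ker → ∀ e : G → F, IsBlk e → IsBlk (push p e)

/-- QT1: the defect groups of the blocks of `N(Q)/Q`.

Proof.  `N = N(Q)`, `f' = push p (br_Q e)`, `C' = p(C(Q))`, normal in `A`; `f'` is supported on `C'`.
`f ≠ 0`, so `br_Q e ≠ 0`, `Q` is good for `e`, so abelian (`FmgStmt`), `Q ≤ C(Q)`.  `f'|C'` is the
sum of blocks of `C'`, so there is a block `g'` of `C'` under `f'` with `f g' ≠ 0`.  `e|C(Q)` is a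
sum of blocks `g` of `C(Q)`, their images under `C(Q) → C'` (kernel `Q`, central) are blocks (PSG)
with sum `f'|C'`, so `g'` is the image of a block `g` of `C(Q)` under `e`.  DUG: a good subgroup
`P` of `g`, `Q ≤ P ≤ C(Q)`, `|P| = |V|`; it is good for `e`, so `P = conjS k V` (`FmgStmt`, orders).
`P' = p(P) ≤ C'` is good for `g'` (`K9.PugStmt` for `C(Q) → C'`).  `A₁ = stab_A(g') ≥ C'`.
`ε = f g'` is supported on `A₁` (write `f` as the sum of its parts on the cosets `a C'`;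
`g' f_a g' = 0` for `a ∉ A₁`, as `g'` and `a g' a⁻¹` are orthogonal), it is a nonzero central
idempotent of `F A₁` with `ε g' = ε`.  `DF.CovEStmt` for `A₁`, `Y = C'`, `b = g'` (stable):
`ε ≠ 0` on `C(P')`.  `br_{P'}(f g') = br_{P'}(f) br_{P'}(g')`, so `P'` is good for `f`.  Maximality:
if `R'` is good for `f`, it is good for `f'` (`f f' = f`, `gd_of_mul`), so `R = p⁻¹(R')` is good for
`br_Q e` (`K9.PugStmt`) and for `e`, `|R'| |Q| = |R| ≤ |V|` (compare `card_good` in
`Helper35_K9/CHQ.lean`). -/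
def Qt1Stmt : Prop := ∀ (ℓ : ℕ) [Fact ℓ.Prime] (M : Ideal (integralClosure ℤ ℂ)) [M.IsMaximal],
  (ℓ : integralClosure ℤ ℂ) ∈ M → ∀ (G : Type) [Group G] [Finite G] (e : G → FF M)
  (V : Subgroup G) (γ : G → FF M), Ld ℓ e V γ → ∀ Q : Subgroup G, IsPGroup ℓ Q → ∀ (A : Type)
  [Group A] [Finite A] (p : Subgroup.normalizer (Q : Set G) →* A), Function.Surjective p →
  p.ker = Q.subgroupOf (Subgroup.normalizer (Q : Set G)) → ∀ f : A → FF M, IsBlk f →
  mulF (push p (fun t : Subgroup.normalizer (Q : Set G) => br Q e t)) f = f →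
  ∃ k : G, Q ≤ conjS k V ∧
    Tp ℓ f (((conjS k V).subgroupOf (Subgroup.normalizer (Q : Set G))).map p)

/-- QT2: the inertial index of the blocks of `N(Q)/Q`.

Proof.  `V' = p(V)`, abelian, `|V'| |Q| = |V|`.  Let `γ'` be a block of `C_A(V')` with
`br_{V'}(f) γ' = γ'` (`V'` is good for `f`).  `T' = Tg V' γ'`, `C₁ = p(C(V))`.
`f f' = f` gives `br_{V'}(f') γ' = γ'`, and `br_{V'}(f')` is supported on `C₁` and is there the image
of `e|C(V)` under `r : C(V) → C₁` (kernel `Q`, central; see `Helper2_K9/PUG.lean`: `f'(h)` is the sum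
of `br_Q(e)` over the preimages of `h` in `C(V)` for `h` centralising `V'`).  `e|C(V) = ∑ γ_i`
(blocks of `C(V)`), `γ'_i = push r γ_i` are blocks of `C₁` (PSG).  So `γ' γ'_i ≠ 0` for some `i`.
Let `t ∈ T'`.  `N_A(V') = p(N(Q) ∩ N(V))` normalises `C₁`.  `γ' (cj t γ'_i) = cj t (γ' γ'_i) ≠ 0`.
The sum `σ` of the `C_A(V')`-conjugates of `γ'_i` is a central idempotent of `F C_A(V')` not
orthogonal to `γ'`, so `γ' σ = γ'`, so `σ (cj t γ'_i) ≠ 0` and `cj t γ'_i = cj c γ'_i` for some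
`c ∈ C_A(V')` (blocks of `C₁` are equal or orthogonal).  So `T' ≤ C_A(V') N₁`, `N₁ = N_A(V') ∩
stab γ'_i`, and `|T' : C_A(V')| ≤ |N₁ : N₁ ∩ C_A(V')| ≤ |N₁ : C₁|`.  `N₁ = p(N₂)`, `N₂ = N(Q) ∩ N(V)
∩ stab γ_i` (if `p(x)` stabilises `γ'_i` then `cj x γ_i = γ_i`: otherwise they are orthogonal, and so
are their images, which are equal), `|N₁ : C₁| ≤ |N₂ : C(V)| ≤ |Tg V γ_i : C(V)| = ix V γ`
(GCH for `γ`, `γ_i`). -/
def Qt2Stmt : Prop := ∀ (ℓ : ℕ) [Fact ℓ.Prime] (M : Ideal (integralClosure ℤ ℂ)) [M.IsMaximal],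
  (ℓ : integralClosure ℤ ℂ) ∈ M → ∀ (G : Type) [Group G] [Finite G] (e : G → FF M)
  (V : Subgroup G) (γ : G → FF M), Ld ℓ e V γ → ∀ Q : Subgroup G, Q ≤ V → ∀ (A : Type)
  [Group A] [Finite A] (p : Subgroup.normalizer (Q : Set G) →* A), Function.Surjective p →
  p.ker = Q.subgroupOf (Subgroup.normalizer (Q : Set G)) → ∀ f : A → FF M, IsBlk f →
  mulF (push p (fun t : Subgroup.normalizer (Q : Set G) => br Q e t)) f = f →
  Tp ℓ f ((V.subgroupOf (Subgroup.normalizer (Q : Set G))).map p) →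
  ∃ γ' : A → FF M, Ld ℓ f ((V.subgroupOf (Subgroup.normalizer (Q : Set G))).map p) γ' ∧
    ix ((V.subgroupOf (Subgroup.normalizer (Q : Set G))).map p) γ' ≤ ix V γ

/-- QTD: QT1 and QT2 together.

Proof.  QT1, then LCJ and QT2 for `conjS k V`, `cj k γ`; the order of the image of
`conjS k V ≤ N(Q)` (abelian, contains `Q`) is `|V|/|Q|`. -/
def QtdStmt : Prop := ∀ (ℓ : ℕ) [Fact ℓ.Prime] (M : Ideal (integralClosure ℤ ℂ)) [M.IsMaximal],
  (ℓ : integralClosure ℤ ℂ) ∈ M → ∀ (G : Type) [Group G] [Finite G] (e : G → FF M)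
  (V : Subgroup G) (γ : G → FF M), Ld ℓ e V γ → ∀ Q : Subgroup G, IsPGroup ℓ Q → ∀ (A : Type)
  [Group A] [Finite A] (p : Subgroup.normalizer (Q : Set G) →* A), Function.Surjective p →
  p.ker = Q.subgroupOf (Subgroup.normalizer (Q : Set G)) → ∀ f : A → FF M, IsBlk f →
  mulF (push p (fun t : Subgroup.normalizer (Q : Set G) => br Q e t)) f = f →
  ∃ (V' : Subgroup A) (γ' : A → FF M), Ld ℓ f V' γ' ∧ Nat.card V' * Nat.card Q = Nat.card V ∧
    ix V' γ' ≤ ix V γ

/-! ## 10. Chains -/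

/-- REC: the recursion for the alternating sum.

Proof.  `NchStmt` (`H94.nch`): only the normal chains.  The chain `{⊥}` gives the first term.  Let `d`
be another normal chain and `Q ≠ ⊥` its smallest nontrivial member; all members are in
`top d ≤ N(Q)`.  `d ↦` (the images in `A = N(Q)/Q` of the members containing `Q`) is a bijection
of the normal chains with second member `Q` onto the normal chains of `A` which begin with `⊥`, with
inverse `d' ↦ {⊥} ∪ {up D' | D' ∈ d'}` (`Helper35_K9/CHQ.lean`: `up`, `card_up`, `up_norm`,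
`lnum_up`; also `H75.comapC`), `stab d = up (stab d')`, `|stab d| = |Q| |stab d'|`,
`lnum (stab d) e = lnum (stab d) (br Q e)` (`K9.LbrStmt`, `Q` normal in `stab d`)
`= lnum (stab d') (push (br Q e))` (`lnum_up`), and the number of members decreases by one. -/
def RecStmt : Prop := ∀ (ℓ : ℕ) [Fact ℓ.Prime] (F : Type) [Field F], GoodF ℓ F → ∀ (G : Type)
  [Group G] [Finite G] (e : G → F), IsIdem e →
  YY ℓ ⊤ e = (Nat.card G : ℤ) * lnum (⊤ : Subgroup G) e -
    ∑ᶠ (Q : Subgroup G) (_ : IsPGroup ℓ Q ∧ Q ≠ ⊥), (Nat.card Q : ℤ) * YQ ℓ e Q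

/-- CHA: the alternating sum of a block with an abelian defect group if the proper local sums vanish.

Proof.  REC.  If `Q` is not good for `e` then `br Q e = 0`, `YQ ℓ e Q = 0`
(`H67.YY_zero`).  If `Q` is good and `|Q| < |V|`: hypothesis.  Otherwise `|Q| = |V|`, `Q` is a
conjugate of `V` (`FmgStmt`).  For such `Q`, `A = N(Q)/Q`, `f' = push (br Q e)`: a good
`ℓ`-subgroup `R'` of `f'` has a preimage `R ≥ Q` which is good for `e` (`K9.PugStmt`), so `R' = ⊥`.
By `K9.LbrStmt` (and `NchStmt`) only the chain `{⊥}` contributes to `YY ℓ ⊤ f'`: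
`YY ℓ ⊤ f' = |A| lnum ⊤ f'`, and `|Q| |A| = |N(Q)|`, `lnum ⊤ f' = ln (br Q e | N(Q))`
(`cnt_push`).  The terms of the `|G : N(V)|` conjugates are equal; their sum is
`|G| ln (br V e | N(V))` (compare `Helper35_K9/CHV.lean`). -/
def ChaStmt : Prop := ∀ (ℓ : ℕ) [Fact ℓ.Prime] (M : Ideal (integralClosure ℤ ℂ)) [M.IsMaximal],
  (ℓ : integralClosure ℤ ℂ) ∈ M → ∀ (G : Type) [Group G] [Finite G] (e : G → FF M), IsBlk e →
  ∀ V : Subgroup G, Tp ℓ e V → V ≠ ⊥ →
  (∀ Q : Subgroup G, IsPGroup ℓ Q → Q ≠ ⊥ → Gd e Q → Nat.card Q < Nat.card V → YQ ℓ e Q = 0) →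
  YY ℓ ⊤ e = (Nat.card G : ℤ) *
    ((ln e : ℤ) - (ln (fun t : Subgroup.normalizer (V : Set G) => br V e t) : ℤ))

/-- DVS: the prime `ℓ` divides the alternating sum.

Proof.  `IsDef ℓ M χ V`: `V` is an `ℓ`-group; the defect class `y` of `FmgStmt` has
`c K_y e = e`, so `omega χ y` is not in `M` (`res M e χ = 1`, `res` is multiplicative), and `V` is a
Sylow subgroup of `C(y)`; if `omega χ y` is not in `M` then `K_y e` is not nilpotent,
`c K_y e = e` for some class function `c` (`H50.blk_dich`), and every good subgroup has a conjugate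
in `C(y)` (`below` in `Helper69_K9/Fmg.lean`).  `V ≠ ⊥` has an element `z` of order `ℓ`, `V` is
abelian (make it a `CommGroup`), `ρ` = identity: `ML.mn4_` (`ML.Mn4Stmt`; `opCore ℓ G = ⊥`). -/
def DvsStmt : Prop := ∀ (ℓ : ℕ) [Fact ℓ.Prime] (M : Ideal (integralClosure ℤ ℂ)) [M.IsMaximal],
  (ℓ : integralClosure ℤ ℂ) ∈ M → ∀ (G : Type) [Group G] [Finite G], opCore ℓ G = ⊥ →
  ∀ (e : G → FF M) (V : Subgroup G) (γ : G → FF M), Ld ℓ e V γ → V ≠ ⊥ → ∀ χ ∈ Irr G,
  res M e χ = 1 → ML.IsDef ℓ M χ V ∧ (ℓ : ℤ) ∣ altSum ℓ M χ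

/-- POS: a nontrivial defect group.

Proof.  `nil_of_good` in `Helper35_K9/CHQ.lean`, with `R = V` (of any order; `ℓ` divides `|V|`). -/
def PosStmt : Prop := ∀ (ℓ : ℕ) [Fact ℓ.Prime] (F : Type) [Field F], GoodF ℓ F → ∀ (G : Type)
  [Group G] [Finite G] (e : G → F), IsBlk e → ∀ V : Subgroup G, IsPGroup ℓ V → V ≠ ⊥ → Gd e V →
  Pos ℓ e ⊤

/-- NVT: the first main theorem with `γ`.

Proof.  `br V e` is a block of `N(V)` with defect group `V` (`FmgStmt`, second part).  The centraliser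
and the normaliser of `V` in `N(V)` are `C(V)` and `N(V)`, `br_V (br_V e) = br_V e`, and the stabiliser
of `γ` in `N(V)` is `T`.  Transfer as in LSB. -/
def NvtStmt : Prop := ∀ (ℓ : ℕ) [Fact ℓ.Prime] (M : Ideal (integralClosure ℤ ℂ)) [M.IsMaximal],
  (ℓ : integralClosure ℤ ℂ) ∈ M → ∀ (G : Type) [Group G] [Finite G] (e : G → FF M)
  (V : Subgroup G) (γ : G → FF M), Ld ℓ e V γ →
  Ld ℓ (fun t : Subgroup.normalizer (V : Set G) => br V e t)
    (V.subgroupOf (Subgroup.normalizer (V : Set G)))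
    (fun t : Subgroup.normalizer (V : Set G) => γ t) ∧
  ix (V.subgroupOf (Subgroup.normalizer (V : Set G)))
    (fun t : Subgroup.normalizer (V : Set G) => γ t) = ix V γ

/-- T3A: the main theorem for block idempotents.

Proof.  Induction on `|G|`.  If `opCore ℓ G ≠ ⊥`: `YzrStmt` (`Helper96_PP/Trn.lean`).  Let
`opCore ℓ G = ⊥`.  For `Q ≠ ⊥`, `|Q| < |V|`: `f' = push (br Q e)` is a central idempotent of the group
`A = N(Q)/Q`, smaller than `G`; `YY` is additive (`H9.addStmt`: `AddStmt`), so `YQ ℓ e Q` is the sum of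
`YY ℓ ⊤ f` over the blocks `f` of `A` under `f'`, which are `0` by QTD and induction
(`|V'| = |V|/|Q| > 1`).  CHA: `YY ℓ ⊤ e = |G| (ln e - ln e₁)`, `e₁ = br V e | N(V)`, a block of `N(V)`
with defect group `V` and the same inertial index (NVT).  `1 ≤ ln e, ln e₁ < ℓ/2` (`K9.LbdStmt`, LBE for `G` and for
`N(V)`).  `H75.block_case` gives `χ` with `res M e χ = 1` and `|G| altSum χ = YY` (POS), and
`ℓ ∣ altSum χ` (DVS), so `altSum χ = ln e - ln e₁` is `0`. -/
def T3aStmt : Prop := ∀ (ℓ : ℕ) [Fact ℓ.Prime] (M : Ideal (integralClosure ℤ ℂ)) [M.IsMaximal],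
  (ℓ : integralClosure ℤ ℂ) ∈ M → ∀ (G : Type) [Group G] [Finite G] (e : G → FF M)
  (V : Subgroup G) (γ : G → FF M), Ld ℓ e V γ → V ≠ ⊥ → 5 ≤ ℓ → 3 * ix V γ ≤ ℓ → YY ℓ ⊤ e = 0

/-! ## 11. The final theorem -/

/-- The inertial group of the block of `θ ∈ Irr(C(D))`: the elements of `N(D)` which stabilise the
central character of `θ` modulo `M`. -/
def Iner (M : Ideal (integralClosure ℤ ℂ)) {G : Type} [Group G] (D : Subgroup G)
    (θ : Subgroup.centralizer (D : Set G) → ℂ) : Set G :=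
  {t | t ∈ Subgroup.normalizer (D : Set G) ∧ ∀ c c' : Subgroup.centralizer (D : Set G),
    (c' : G) = t * c * t⁻¹ → Cong M (omega (MonoidHom.id _) θ c') (omega (MonoidHom.id _) θ c)}

/-- FLT: from characters to block idempotents.

Proof.  `Tp ℓ e D`: let `V` be a good `ℓ`-subgroup of `e` of maximal order (`⊥` is good).  Then
`IsDef ℓ M χ V` (the first part of the proof of DVS needs only `Tp`).  By the definition of `IsDef`
for `D` and for `V` a conjugate of `D` is contained in `C(y_V)`, where `V` is a Sylow subgroup, and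
conversely, so `D` and `V` are conjugate; `Tp` is invariant under conjugation.  `γ`: the block of
`θ` in `F C(D)`, extended by zero.  `θ ∈ IrrBlock M _ χ` says that the central character of `θ` at
`br_D(K⁺)` is that of `χ` at `K⁺`, so `res M (br_D e | C(D)) θ = res M e χ = 1`, and
`br_D(e) γ = γ` (`H50.blk_dich`).  `Tg D γ`: `t ∈ N(D)` stabilises `γ` iff it stabilises the central
character of `θ` mod `M` (`H50.char_uniq`; a block is determined by its central character). -/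
def FltStmt : Prop := ∀ (ℓ : ℕ) [Fact ℓ.Prime] (M : Ideal (integralClosure ℤ ℂ)) [M.IsMaximal],
  (ℓ : integralClosure ℤ ℂ) ∈ M → ∀ (G : Type) [Group G] [Finite G], ∀ χ ∈ Irr G,
  ∀ e : G → FF M, IsBlk e → res M e χ = 1 → ∀ D : Subgroup G, ML.IsDef ℓ M χ D →
  (∀ a ∈ D, ∀ b ∈ D, a * b = b * a) →
  ∀ θ ∈ IrrBlock M (Subgroup.centralizer (D : Set G)).subtype χ,
  ∃ γ : G → FF M, Ld ℓ e D γ ∧ (Tg D γ : Set G) = Iner M D θ

/-- FNT: the final theorem.

Proof.  `Z = opCore ℓ G`, `p : G → G/Z`, `e` the block of `χ` (`H50.bid`).  `H75.altSum_central`: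
`|G| altSum χ = |Z|² YY ℓ ⊤ (push p e)`.  `f = push p e` is a block (PSG).  FLT gives `γ`, `ix D γ`
is the number in the hypothesis.  QTD for `Q = Z` (`N(Z) = G`, `br Z e = e`): `Ld ℓ f V' γ'`,
`|V'| |Z| = |D|`, `ix V' γ' ≤ ix D γ`.  `V' ≠ ⊥`: `D ≠ Z` and `Z ≤ D` (`Z` is contained in a conjugate of
`D` by QT1, or `Z D` is good).  T3A for `G/Z`. -/
def FntStmt : Prop := ∀ (ℓ : ℕ) [Fact ℓ.Prime] (M : Ideal (integralClosure ℤ ℂ)) [M.IsMaximal],
  (ℓ : integralClosure ℤ ℂ) ∈ M → 5 ≤ ℓ → ∀ (G : Type) [Group G] [Finite G],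
  opCore ℓ G ≤ Subgroup.center G → ∀ χ ∈ Irr G, ∀ D : Subgroup G, ML.IsDef ℓ M χ D →
  D ≠ opCore ℓ G → (∀ a ∈ D, ∀ b ∈ D, a * b = b * a) →
  ∀ θ ∈ IrrBlock M (Subgroup.centralizer (D : Set G)).subtype χ,
  3 * (Iner M D θ).ncard ≤ ℓ * Nat.card (Subgroup.centralizer (D : Set G)) →
  altSum ℓ M χ = 0

end Pool.Agent.PP.T3
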