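import Pool.Agent.AT3.Defs

/-!
# Squad AT3, part 1: traces, orthogonality, integrality, arithmetic

Text: `AWC_T3.md`.  Complete proofs in the docstrings.  Notation: `b^` is the lift `eh M b` of an
idempotent (coefficients in the local ring `RM M`, `KF.IdmStmt`); it vanishes at the `ℓ`-singular
elements (`K9.H25.eh_sing`), it is a class function, `eh b (c⁻¹)` is the complex conjugate of
`eh b c`.  `chv a χ` is the value of `χ` at the element `a` of the group ring, `TrcStmt`: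
`∑ chv a χ * chv b χ` is the trace of `x ↦ a x b`.
-/

open scoped BigOperators

noncomputable section

namespace Pool.Agent.PP.T3

open Pool.Agent.Helper51_AWC Pool.Agent.Helper79_WRA Pool.Agent.PP Pool.Agent.PP.KF
open Pool.Agent.PP.K9 Pool.Agent.PP.K9.H97 Pool.Agent.PP.H75

attribute [local instance] Ideal.Quotient.field

/-! ## 1. Traces -/

/-- TRG: the trace of an automorphism of `ℓ`-power order of a relatively projective lattice.

Proof.  Let `ω` be a primitive `ℓ`-th root of unity (residue `1`, since `(ω - 1) ^ ℓ` is divisible by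
`ℓ` in the algebraic integers and the residue field has characteristic `ℓ`).  Replace `X` by
`X₁ = m⁻¹ ∑_{k < m} V ^ k P X P V ^ (m - k)` (entries in `RM M`, since `m` is a unit of the local
ring).  `X₁` commutes with `V`, with `U ^ ℓ`, and `P X₁ P = X₁`; the sum
`∑ U ^ i X₁ W ^ i` has the same reduction `P`, because `V`, `P`, `U`, `W` commute with each other
(`W = U⁻¹`).  Put `φ = ∑_{i < ℓ} ω ^ (-i) U ^ i X₁ W ^ i`.  `U φ W = ω φ` (shift the index, the two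
ends agree since `U ^ ℓ X₁ W ^ ℓ = X₁`, `ω ^ ℓ = 1`), so `U φ = ω φ U`; `V φ = φ V`;
`P φ = φ = φ P`; the reduction of `φ` is the reduction of `P`.  `Z = φ + 1 - P` has reduction `1`,
so its determinant has residue `1` and is not zero.  Let `ψ = Z⁻¹`; it commutes with `P` and with
`V`, and `ψ φ = φ ψ = P` (`φ = P Z = Z P`).  Now `tr(U V P) = tr(U V φ ψ) = ω tr(φ U V ψ)
= ω tr(U V ψ φ) = ω tr(U V P)`, so the trace is zero. -/
def TrgStmt : Prop := ∀ (ℓ : ℕ) [Fact ℓ.Prime] (M : Ideal (integralClosure ℤ ℂ)) [M.IsMaximal],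
  (ℓ : integralClosure ℤ ℂ) ∈ M → ∀ (n : Type) [Fintype n] [DecidableEq n]
  (P U W V X : Matrix n n ℂ) (m : ℕ), 0 < m → ¬ ℓ ∣ m → (∀ i j, P i j ∈ RM M) →
  (∀ i j, U i j ∈ RM M) → (∀ i j, W i j ∈ RM M) → (∀ i j, V i j ∈ RM M) →
  (∀ i j, X i j ∈ RM M) → P * P = P → U * W = 1 → V ^ m = 1 → U * P = P * U → V * P = P * V →
  U * V = V * U → X * U ^ ℓ = U ^ ℓ * X →
  P.map (rr M) * (∑ i ∈ Finset.range ℓ, U.map (rr M) ^ i * X.map (rr M) * W.map (rr M) ^ i) *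
    P.map (rr M) = P.map (rr M) → (U * V * P).trace = 0

/-- CYC: half a transversal for a permutation of `ℓ`-power order.

Proof.  Every `σ`-orbit with more than one element has a length divisible by `ℓ` (the length divides
`ℓ ^ n`).  Choose a representative `r` in every orbit and put `c (σ ^ k r) = 1` if `ℓ ∣ k` and `0`
otherwise (well defined in the orbits of length divisible by `ℓ`); `c = 0` at the fixed points. -/
def CycStmt : Prop := ∀ (ℓ : ℕ) [Fact ℓ.Prime] (X : Type) [Finite X] (σ : Equiv.Perm X) (n : ℕ),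
  σ ^ ℓ ^ n = 1 → ∃ c : X → ℕ, (∀ x, c x = 0 ∨ c x = 1) ∧ (∀ x, c ((σ ^ ℓ) x) = c x) ∧
    ∀ x, σ x ≠ x → ∑ i ∈ Finset.range ℓ, c ((σ ^ i) x) = 1

/-- SMG: the second main theorem, for all `ℓ`-elements `y ≠ 1`.

Proof (compare `Helper10_K9/SM2.lean`, the case of an element of order `ℓ`).  Let `g = y s`.
(i) `∑_{χ ∉ e} |χ(g b^)|²` is the trace of `x ↦ (1 - e^) g b^ x b^ g⁻¹` on the complex group ring
(`TrcStmt`, IDM).  Apply TRG with `P x = (1 - e^) b^ x b^`, `U x = y x y⁻¹`, `W x = y⁻¹ x y`,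
`V x = s x s⁻¹` (`b^` commutes with `y` and `s`), `m` the order of `s`.  Let
`β = (1 - e^) b^`, an element with coefficients in `RM M` which commutes with `y`; its residue
`(1 - e) b` vanishes on `C(y)`, because `((1 - e) b)|C(y) = (1 - e|C(y)) b = 0`.  Let `c` be the
function of CYC for the permutation `x ↦ y x y⁻¹` of `G`, `β' = c β` (product of values),
`X x = β' x b^`.  `β'` commutes with `y ^ ℓ`, so `X` commutes with `U ^ ℓ`.
`U ^ i X W ^ i x = (y ^ i β' y ^ (-i)) x b^`, and `∑_{i < ℓ} y ^ i β' y ^ (-i) = β` outside of `C(y)`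
and `ℓ c β` or `0` on `C(y)`, so its residue is `(1 - e) b`.  So the sum in TRG is
`x ↦ (1 - e) b x b`, which is the reduction of `P`.  The trace of `U V P` is zero, all the terms
`|χ(g b^)|²` are zero.  (ii) is (i) for the idempotent `1 - e`. -/
def SmgStmt : Prop := ∀ (ℓ : ℕ) [Fact ℓ.Prime] (M : Ideal (integralClosure ℤ ℂ)) [M.IsMaximal],
  (ℓ : integralClosure ℤ ℂ) ∈ M → ∀ (G : Type) [Group G] [Finite G] (y s : G), y ≠ 1 → El ℓ y →
  s ∈ Cu y → Reg ℓ s → ∀ b : Cu y → FF M, IsIdem b → ∀ e : G → FF M, IsIdem e →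
  (mulF (fun t : Cu y => e t) b = b → ∀ χ ∈ Irr G, χ ∉ IrrE M e →
    gbv (Cu y) (y * s) (eh M b) χ = 0) ∧
  (mulF (fun t : Cu y => e t) b = 0 → ∀ χ ∈ IrrE M e, gbv (Cu y) (y * s) (eh M b) χ = 0)

/-! ## 2. Orthogonality -/

/-- CO1: the norm of the vector `χ(u b^)`.

Proof.  The complex conjugate of `χ(u b^)` is `χ(u⁻¹ b^)`.  By `TrcStmt` the sum is the sum over
`x, g` of `a(g) a'(x⁻¹ g⁻¹ x)`, `a = u b^`, `a' = u⁻¹ b^` (supported on `u C'`, `u⁻¹ C'`,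
`C'` the `ℓ`-regular elements of `C(u)`).  `g = u s`, `x⁻¹ s⁻¹ u⁻¹ x = u⁻¹ s'`; comparing the
`ℓ`-parts, `x ∈ C(u)`.  So the sum is `|C| ∑_s b^(s) b^(s⁻¹) = |C| (b^ b^)(1) = |C| b^(1)
= ∑_{κ ∈ b} κ(1)²`.  (For `u = 1` this is also correct.) -/
def Co1Stmt : Prop := ∀ (ℓ : ℕ) [Fact ℓ.Prime] (M : Ideal (integralClosure ℤ ℂ)) [M.IsMaximal],
  (ℓ : integralClosure ℤ ℂ) ∈ M → ∀ (G : Type) [Group G] [Finite G] (u : G), El ℓ u →
  ∀ b : G → FF M, Ix (Cu u) b →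
    ∑ᶠ χ ∈ Irr G, gv M (Cu u) u b χ * starRingEnd ℂ (gv M (Cu u) u b χ) =
      ∑ᶠ κ ∈ IrrE M (fun t : Cu u => b t), κ 1 ^ 2

/-- CO2: orthogonality.

Proof.  As CO1: only the `x` with `x⁻¹ u⁻¹ x = u'⁻¹`, i.e. `x u' x⁻¹ = u`, contribute, and for such
an `x` the sum over `g` is `(b^ · (x b'^ x⁻¹))(1)`, where `x b'^ x⁻¹` is the lift of `cj x b'`
(`C(u) = x C(u') x⁻¹`).  It vanishes because the two idempotents of `F C(u)` are orthogonal, so
their lifts are (no character is in both). -/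
def Co2Stmt : Prop := ∀ (ℓ : ℕ) [Fact ℓ.Prime] (M : Ideal (integralClosure ℤ ℂ)) [M.IsMaximal],
  (ℓ : integralClosure ℤ ℂ) ∈ M → ∀ (G : Type) [Group G] [Finite G] (u u' : G), El ℓ u → El ℓ u' →
  ∀ b b' : G → FF M, Ix (Cu u) b → Ix (Cu u') b' →
  (∀ x : G, x * u' * x⁻¹ = u → mulF b (cj x b') = 0) →
    ∑ᶠ χ ∈ Irr G, gv M (Cu u) u b χ * starRingEnd ℂ (gv M (Cu u') u' b' χ) = 0

/-- BES: Bessel's inequality, in the form of the Schur test.

Proof.  `x i = conj (∑ k, s k v i k)`, `A = ∑ |x i|²`.  `A = ∑ k, s k (∑ i, x i v i k)`, so by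
Cauchy-Schwarz `A² ≤ (∑ |s k|²) ∑ k |∑ i, x i v i k|²`, and the last sum is
`∑ i i', x i conj (x i') ∑ k v i k conj (v i' k) ≤ ∑ i i', (|x i|² + |x i'|²)/2 · |G i i'| ≤ c A`
(the Gram matrix `G` is hermitian). -/
def BesStmt : Prop := ∀ (ι κ : Type) [Fintype ι] [Fintype κ] (v : ι → κ → ℂ) (c : ℝ), 0 ≤ c →
  (∀ i, ∑ i', ‖∑ k, v i k * starRingEnd ℂ (v i' k)‖ ≤ c) → ∀ s : κ → ℂ,
    ∑ i, Complex.normSq (∑ k, s k * v i k) ≤ c * ∑ k, Complex.normSq (s k)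

/-! ## 3. Integrality -/

/-- GLP: the conjugates of an element of `ℤ[ζ]`, `ζ` of order `ℓ ^ a` (compare
`Helper65_K9/GAL.lean`, the case `a = 1`).

Proof.  Let `y_j = ∑ m_i ζ ^ (i j)`.  Parseval: the sum of `|y_j|²` over all `j < ℓ ^ a` is
`ℓ ^ a ∑ m_i²`, the sum over the `j` divisible by `ℓ` is `ℓ ^ (a-1) ∑_r (∑_{i ≡ r} m_i)²`, `r` mod
`ℓ ^ (a-1)`.  So the sum over the `j` prime to `ℓ` is `ℓ ^ (a-1) ∑_r D_r`,
`D_r = ℓ ∑_{i ≡ r} m_i² - (∑_{i ≡ r} m_i)²`, the sum of `(m_i - m_i')²` over the pairs `i < i'` in the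
class `r` (with `ℓ` members).  If `m` is constant on all classes then `y_1 = 0`, because
`∑_{i ≡ r} ζ ^ i = 0`.  A class on which `m` is not constant has at least `ℓ - 1` pairs with
different values (`k (ℓ - k) ≥ ℓ - 1` for a value taken `k` times), so `D_r ≥ ℓ - 1`.
Equality: exactly one class is not constant, with exactly `ℓ - 1` unequal pairs, all differences
`±1`: `m` has exactly two values in this class, one of them is taken once (at `i₀`), and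
`y_j = ±ζ ^ (i₀ j)` for all `j` prime to `ℓ`. -/
def GlpStmt : Prop := ∀ (ℓ : ℕ) [Fact ℓ.Prime] (a : ℕ), 0 < a → ∀ ζ : ℂ,
  IsPrimitiveRoot ζ (ℓ ^ a) → ∀ m : ℕ → ℤ,
  ∑ i ∈ Finset.range (ℓ ^ a), (m i : ℂ) * ζ ^ i ≠ 0 →
  (((ℓ ^ (a - 1) * (ℓ - 1) : ℕ) : ℝ) ≤
    ∑ j ∈ (Finset.range (ℓ ^ a)).filter (fun j => ¬ ℓ ∣ j),
      Complex.normSq (∑ i ∈ Finset.range (ℓ ^ a), (m i : ℂ) * ζ ^ (i * j))) ∧
  (∑ j ∈ (Finset.range (ℓ ^ a)).filter (fun j => ¬ ℓ ∣ j),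
      Complex.normSq (∑ i ∈ Finset.range (ℓ ^ a), (m i : ℂ) * ζ ^ (i * j)) =
      ((ℓ ^ (a - 1) * (ℓ - 1) : ℕ) : ℝ) →
    ∀ j, ¬ ℓ ∣ j →
      Complex.normSq (∑ i ∈ Finset.range (ℓ ^ a), (m i : ℂ) * ζ ^ (i * j)) = 1)

/-- INR: integrality of `χ(u b^)/d`.

Proof.  The restriction of `χ` to `C = C(u)` is `∑ m_κ κ` with integers `m_κ`
(`Helper30_KF/Mul.lean`, `mult_int`).  `κ(u ^ j b^) = κ(u ^ j)` if `κ ∈ b` and `0` otherwise
(IDM).  `u` is central in `C`, so `κ(u ^ j) = ζ ^ (i j) κ(1)`, `i = i(κ)` (Schur; compare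
`cent_sign`), and `κ(1) = d` for `κ ∈ b`. -/
def InrStmt : Prop := ∀ (M : Ideal (integralClosure ℤ ℂ)) [M.IsMaximal] (G : Type) [Group G]
  [Finite G] (u : G) (q : ℕ), 0 < q → u ^ q = 1 → ∀ b : G → FF M, Ix (Cu u) b → ∀ d : ℕ,
  Dg M (fun t : Cu u => b t) d → ∀ ζ : ℂ, IsPrimitiveRoot ζ q → ∀ χ ∈ Irr G,
  ∃ m : ℕ → ℤ, ∀ j : ℕ, gv M (Cu u) (u ^ j) b χ =
    d * ∑ i ∈ Finset.range q, (m i : ℂ) * ζ ^ (i * j)

/-- RIN: characters fixed by the power map.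

Proof.  `u ^ ℓ ^ a = 1`, `ζ` of order `ℓ ^ a`, `m` as in INR, `a > 0`.
`χ(u ^ j b^) = χ(u b^)` for all `j` prime to `ℓ`: `j` acts as `N ^ k` on the `ℓ`-elements (`gen`),
and `χ((u s) ^ N) = χ(u ^ N s)` for `s` regular in `C(u)` (`b^` vanishes at the singular elements).
So `v = ∑ m_i ζ ^ i` satisfies `v = ∑ m_i ζ ^ (i j)` for all these `j`; adding over the units `j`
mod `ℓ ^ a`, `φ(ℓ ^ a) v = ∑ m_i ∑_j ζ ^ (i j)` is a rational integer (`∑_j ζ ^ (i j)` is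
`φ(ℓ ^ a)`, `- ℓ ^ (a-1)` or `0`).  So `v` is rational and an algebraic integer, an integer. -/
def RinStmt : Prop := ∀ (ℓ : ℕ) [Fact ℓ.Prime] (M : Ideal (integralClosure ℤ ℂ)) [M.IsMaximal],
  (ℓ : integralClosure ℤ ℂ) ∈ M → ∀ (G : Type) [Group G] [Finite G] (N : ℕ), GN G ℓ N →
  ∀ u : G, El ℓ u → ∀ b : G → FF M, Ix (Cu u) b → ∀ d : ℕ, Dg M (fun t : Cu u => b t) d →
  ∀ χ ∈ Irr G, (∀ g, χ (g ^ N) = χ g) → ∃ z : ℤ, gv M (Cu u) u b χ = d * z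

/-- PRM: existence of `N`.

Proof.  `|G| = ℓ ^ a m`, `m` prime to `ℓ`, `a' = max(a, 1)`.  The unit group of `ℤ/ℓ ^ a'` is cyclic
(`ℓ` odd); let `t` be a generator; `N = t` mod `ℓ ^ a'`, `N = 1` mod `m` (Chinese remainder
theorem), so that `N` is prime to `ℓ m`, so to `|G|`.  `g` regular: `g ^ m = 1`, `g ^ N = g`.  `y` an
`ℓ`-element: `y ^ ℓ ^ a' = 1`, and `j = t ^ k` mod `ℓ ^ a'`.  `t` generates the units mod `ℓ` (of
order `ℓ - 1`), so `N ^ k ≠ 1` mod `ℓ` for `0 < k < ℓ - 1`. -/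
def PrmStmt : Prop := ∀ (ℓ : ℕ) [Fact ℓ.Prime], ℓ ≠ 2 → ∀ (G : Type) [Group G] [Finite G],
  ∃ N : ℕ, GN G ℓ N

/-! ## 4. Characters fixed by the power map -/

/-- RTC: the power map permutes the irreducible characters and respects the blocks.

Proof.  `χ' = (g ↦ χ(g ^ N))` is a virtual character (`K9.AdaStmt`: all inner products with
irreducible characters are integers) of norm one (`g ↦ g ^ N` is a bijection of `G`, `N` prime to
`|G|`), and `χ'(1) > 0`: so it is irreducible.  `res M e χ'`: `e` vanishes at the singular classes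
(its lift does), and at the regular classes `χ' = χ`, so the central characters agree there. -/
def RtcStmt : Prop := ∀ (ℓ : ℕ) [Fact ℓ.Prime] (M : Ideal (integralClosure ℤ ℂ)) [M.IsMaximal],
  (ℓ : integralClosure ℤ ℂ) ∈ M → ∀ (G : Type) [Group G] [Finite G] (N : ℕ), GN G ℓ N →
  ∀ e : G → FF M, IsIdem e → (∀ χ ∈ Irr G, (fun g => χ (g ^ N)) ∈ Irr G) ∧
    ∀ χ ∈ IrrE M e, (fun g => χ (g ^ N)) ∈ IrrE M e

/-- FIX: the number of the characters in `e` fixed by the power map, if no pair `(y, b)`, `y ≠ 1` an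
`ℓ`-element, `b` a block of `C(y)` under `e`, is conjugate to `(y ^ N, b)`.

Proof.  By RTC the number is `∑_{χ ∈ e} (χ ∘ (· ^ N), χ) = |G|⁻¹ ∑_g ∑_{χ ∈ e} χ(g ^ N) conj χ(g)`.
For `g` regular `g ^ N = g`.  The singular `g` are the `y s`, `y ≠ 1` an `ℓ`-element, `s` regular in
`C = C(y)`, `(y s) ^ N = y ^ N s`, `C(y ^ N) = C` (`y` is a power of `y ^ N`).  So it is enough that
for every `y ≠ 1`: `∑_s ∑_{χ ∈ e} χ(y ^ N s) conj χ(y s) = 0`, `s` over the regular elements of `C`.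
Let `χ_b(c) = gbv C c (b^) χ = χ(c b^)` for the blocks `b` of `C`, so `χ = ∑_b χ_b` on `C`.
(1) For `b ≠ b'`: `∑_s χ_b(y ^ N s) conj χ_b'(y s) = 0`: `χ_b = ∑_{κ ∈ b} m_κ κ` on `C`,
`κ(y ^ N s) = κ(y ^ N)/κ(1) κ(s)`, and `∑_s κ(s) conj κ'(s) = 0` for `κ ∈ b`, `κ' ∉ b` (`RotStmt`).
(2) If `e|C b = 0` then `χ_b(y s) = 0` for all `χ ∈ e` (SMG).  (3) If `e|C b = b` then
`χ_b(y s) = 0` for `χ ∉ e` (SMG), so the sum over `χ ∈ e` of `χ_b(y ^ N s) conj χ_b(y s)` is the sum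
over all `χ`, the trace of `x ↦ y ^ N s b^ x b^ s⁻¹ y⁻¹` (`TrcStmt`).  Apply TRG: `P x = b^ x b^`,
`U x = y ^ N x y⁻¹`, `V x = s x s⁻¹`, `X = P X₀ P` with `X₀` the diagonal matrix of the function `c`
of CYC for the permutation `x ↦ y ^ N x y⁻¹`.  `∑ U ^ i X₀ W ^ i` is `1` off the fixed points and has
residue `0` on the fixed points, so `∑ U ^ i X W ^ i = P - P π P` mod `M`, `π` the projection onto
the span of the fixed points `x`, `x y x⁻¹ = y ^ N`.  Such an `x` normalises `C`, and `b x b =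
x (x⁻¹ b x) b = 0`, because `x⁻¹ b x ≠ b` are two blocks of `C`.  So `P π P = 0` mod `M`. -/
def FixStmt : Prop := ∀ (ℓ : ℕ) [Fact ℓ.Prime] (M : Ideal (integralClosure ℤ ℂ)) [M.IsMaximal],
  (ℓ : integralClosure ℤ ℂ) ∈ M → ∀ (G : Type) [Group G] [Finite G] (N : ℕ), GN G ℓ N →
  ∀ e : G → FF M, IsIdem e →
  (∀ y : G, y ≠ 1 → El ℓ y → ∀ b : G → FF M, Bx (Cu y) b →
    mulF (fun t : Cu y => e t) (fun t : Cu y => b t) = (fun t : Cu y => b t) →
    ∀ g : G, g * y * g⁻¹ = y ^ N → cj g b ≠ b) →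
  ({χ | χ ∈ IrrE M e ∧ ∀ g, χ (g ^ N) = χ g}.ncard : ℂ) =
    (Nat.card G : ℂ)⁻¹ * ∑ᶠ (s : G) (_ : Reg ℓ s), ∑ᶠ χ ∈ IrrE M e, χ s * starRingEnd ℂ (χ s)

/-- LRK: the number of modular characters.

Proof.  Let `E f (x) = ∑_t eh(t) f(t x)` on complex class functions: it is the projection on the span
of `IrrE M e` along the other irreducible characters, with matrix entries in `RM M` in the basis of
the indicator functions of the classes, and its reduction is `actF e`.  `RotStmt`: `E` preserves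
the class functions supported on the regular elements, and those vanishing on the regular elements
(`SS`).  The trace of `E` on the first space is the right side (`(E 1_K)(x) = |K|/|G|
∑_{χ ∈ e} conj χ(x) χ(x)` for `x ∈ K`), so the right side is `rank E - rank (E | SS)`.  The rank of
an idempotent matrix over `RM M` is the rank of its reduction (`KF.H48.rank_red` for `E` and for
`1 - E`).  So the right side is `rk e cfs - rank (actF e | SS over F)`.  Over `F`: `cfs = TT ⊕ SS`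
(`f ↦ (x ↦ f(x_{ℓ'}))`), both stable under `e` (`RglStmt`, `BrtStmt`), so the right side is
`rk e TT`, the number of modular characters (`RnkStmt`). -/
def LrkStmt : Prop := ∀ (ℓ : ℕ) [Fact ℓ.Prime] (M : Ideal (integralClosure ℤ ℂ)) [M.IsMaximal],
  (ℓ : integralClosure ℤ ℂ) ∈ M → ∀ (G : Type) [Group G] [Finite G] (e : G → FF M), IsIdem e →
  (ln e : ℂ) = (Nat.card G : ℂ)⁻¹ *
    ∑ᶠ (s : G) (_ : Reg ℓ s), ∑ᶠ χ ∈ IrrE M e, χ s * starRingEnd ℂ (χ s)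

/-! ## 5. The arithmetic lemma -/

/-- ARI: the bound for the number of rows.

Proof.  Let `n = |ι|`, `R = |ρ|`, `R > 0`.  `n > 0`.  No `a r i` is divisible by `ℓ`: otherwise the
whole row is, `s = δ_r` gives `n ℓ² ≤ K`, against `2 K < ℓ n`.  So there are signs `s r = ±1` and
`1 ≤ t r ≤ (ℓ - 1)/2` with `s r * a r i = t r - ℓ j r i`, `j r i` integers.  `T = ∑ t r ≥ R`,
`J i = ∑_r j r i`, and the hypothesis for `s` gives (1) `∑_i (T - ℓ J i)² ≤ K R`.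
Case `2 T ≤ ℓ`: `(T - ℓ J)² ≥ T²` for all integers `J`, so `n T² ≤ K R ≤ K T`, `n R ≤ n T ≤ K`.
Case `2 T > ℓ`: `(T - ℓ J)² ≥ T² - (2 T - ℓ) ℓ J` (as `J² ≥ J`), so
(2) `K R ≥ n T² - (2 T - ℓ) ℓ ∑_i J i`.  The hypothesis for `δ_r`: `K ≥ ∑_i (t - ℓ j)² ≥
n t² + ℓ (ℓ - 2 t) ∑_i j r i`, so `(ℓ - 2 t) ℓ ∑_i j r i ≤ K - n t²`, and
`(K - n t²)(ℓ - 2) ≤ (K - n)(ℓ - 2 t)`, because the difference is
`(t - 1) (n ((t + 1) ℓ - 2 t) - 2 K) ≥ 0` (`2 K < ℓ n` and `ℓ ≤ (t + 1) ℓ - 2 t`).  So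
`(ℓ - 2) ℓ ∑_i j r i ≤ K - n` and (3) `(ℓ - 2) ℓ ∑ J i ≤ R (K - n)`.  From (2), (3):
`h(T) := (ℓ - 2) n T² - 2 T R (K - n) + ℓ R (K - n) - (ℓ - 2) K R ≤ 0`.  But `h` is increasing for
`T ≥ R` (`h' ≥ 2 R ((ℓ - 1) n - K) > 0`).  If `2 R ≥ ℓ`: `h(T) ≥ h(R) = R (R - 1) (ℓ n - 2 K) > 0`.
If `2 R < ℓ < 2 T`: `4 h(T) > 4 h(ℓ/2) = (ℓ - 2)(n ℓ² - 4 K R) ≥ 0`, since `4 K R ≤ 2 K ℓ ≤ n ℓ²`.
Contradiction. -/
def AriStmt : Prop := ∀ (ℓ K : ℕ) (ρ ι : Type) [Fintype ρ] [Fintype ι] (a : ρ → ι → ℤ), 3 ≤ ℓ →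
  Odd ℓ → 2 * K < ℓ * Fintype.card ι → (∀ r i, a r i ≠ 0) →
  (∀ r i i', (ℓ : ℤ) ∣ a r i - a r i') →
  (∀ s : ρ → ℤ, ∑ i, (∑ r, s r * a r i) ^ 2 ≤ K * ∑ r, s r ^ 2) →
  Fintype.card ρ * Fintype.card ι ≤ K

end Pool.Agent.PP.T3
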