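import Pool.Agent.AT3.Stmts1

/-!
# Squad AT3, part 2: local blocks, blocks of inertial index one, the bound for `l(B)`

Text: `AWC_T3.md`.  Complete proofs in the docstrings.  `Ld ℓ e V γ`: `e` is a block of `G`, `V` an
abelian defect group, `γ` a block of `C(V)` under `e`, `T = Tg V γ` the inertial group,
`ix V γ = |T : C(V)|`.  `Lc e V γ u b`: `b` is the block of `C(u)`, `u ∈ V`, with
`(1, e) ≤ (u, b) ≤ (V, γ)`.
-/

open scoped BigOperators

noncomputable section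

namespace Pool.Agent.PP.T3

open Pool.Agent.Helper51_AWC Pool.Agent.Helper79_WRA Pool.Agent.PP Pool.Agent.PP.KF
open Pool.Agent.PP.K9 Pool.Agent.PP.K9.H97 Pool.Agent.PP.H75

attribute [local instance] Ideal.Quotient.field

/-! ## 6. Local blocks -/

/-- LOC: existence and uniqueness of the local block.

Proof.  `C(V) ≤ C(u)`.  `1 = ∑ b_i`, the sum of the blocks of `C(u)`.  `br_V` is multiplicative on the
`V`-invariant elements, so the `br_V(b_i) γ` are orthogonal central idempotents of `F C(V)` with sum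
`γ`; `γ` is a block, so exactly one `i` has `br_V(b_i) γ = γ`, the others have
`br_V(b_i) γ = 0`.  `e|C(u) b_i` is `b_i` or `0`; in the last case
`γ = br_V(e) br_V(b_i) γ = 0` (`br_V(e) = br_V(e|C(u))`), a contradiction.  Uniqueness is clear. -/
def LocStmt : Prop := ∀ (ℓ : ℕ) [Fact ℓ.Prime] (F : Type) [Field F], GoodF ℓ F → ∀ (G : Type)
  [Group G] [Finite G] (e : G → F) (V : Subgroup G) (γ : G → F), Ld ℓ e V γ → ∀ u ∈ V,
  (∃ b, Lc e V γ u b) ∧ ∀ b b', Lc e V γ u b → Lc e V γ u b' → b = b'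

/-- LSB: the local block has the same defect group, the inertial group is `T ∩ C(u)`.

Proof.  `V` is good for `b`: `br_V(b) γ = γ ≠ 0`.  A good `ℓ`-subgroup of `b` is good for `e` (as
`e|C(u) b = b`; `K9.H97.gd_of_mul`, `gd_map`).  The centraliser and the normaliser of
`V.subgroupOf (Cu u)` in `Cu u` are `C(V)` and `N(V) ∩ C(u)` (compare `Helper97_K9/NZR.lean`:
`cent_sub`, `br_ext0`, `norm_sub`, `bx_of`), the transfer of `γ` along these isomorphisms is a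
block.  The last claim: the characters of `γ` on the two isomorphic groups correspond
(`K9.PsiStmt` for the isomorphism). -/
def LsbStmt : Prop := ∀ (ℓ : ℕ) [Fact ℓ.Prime] (M : Ideal (integralClosure ℤ ℂ)) [M.IsMaximal],
  (ℓ : integralClosure ℤ ℂ) ∈ M → ∀ (G : Type) [Group G] [Finite G] (e : G → FF M)
  (V : Subgroup G) (γ : G → FF M), Ld ℓ e V γ → ∀ u ∈ V, ∀ b, Lc e V γ u b →
  Ld ℓ (fun t : Cu u => b t) (V.subgroupOf (Cu u)) (fun t : Cu u => γ t) ∧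
  ix (V.subgroupOf (Cu u)) (fun t : Cu u => γ t) =
    (Subgroup.centralizer (V : Set G)).relIndex (Tg V γ ⊓ Cu u) ∧
  Nat.card (V.subgroupOf (Cu u)) = Nat.card V ∧
  Nat.card (Subgroup.centralizer ((V.subgroupOf (Cu u) : Subgroup (Cu u)) : Set (Cu u))) =
    Nat.card (Subgroup.centralizer (V : Set G)) ∧
  ∀ c : ℕ, Dg M (fun t : Subgroup.centralizer (V : Set G) => γ t) c →
    Dg M (fun t : Subgroup.centralizer ((V.subgroupOf (Cu u) : Subgroup (Cu u)) : Set (Cu u)) =>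
      γ ((t : Cu u) : G)) c

/-- LPW: the powers `u ^ j`, `j` prime to `ℓ`.

Proof.  `u` is an `ℓ`-element, so `u` is a power of `u ^ j` and the centralisers are equal; rewrite. -/
def LpwStmt : Prop := ∀ (ℓ : ℕ) [Fact ℓ.Prime] (F : Type) [Field F], GoodF ℓ F → ∀ (G : Type)
  [Group G] [Finite G] (e : G → F) (V : Subgroup G) (γ : G → F), Ld ℓ e V γ → ∀ u ∈ V, ∀ b,
  Lc e V γ u b → ∀ j : ℕ, ¬ ℓ ∣ j → Cu (u ^ j) = Cu u ∧ Lc e V γ (u ^ j) b

/-- FUS: the inertial group controls the fusion.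

Proof.  `g V g⁻¹` is good for `cj g b' = b` (`V` is good for `b'`), in the group `C(u)` (`V ≤ C(u')`,
`g C(u') g⁻¹ = C(u)`), and it has the order of `V`, so by `FmgStmt` (first part, for `C(u)`, `b`,
`V`: LSB) there is `c ∈ C(u)` with `c g V g⁻¹ c⁻¹ = V`.  `n = c g` is in `N(V)`,
`n u' n⁻¹ = u`, and `cj n γ` is a block of `C(V)` with `br_V(b) cj n γ = cj n γ` (apply `cj n` to
`br_V(b') γ = γ`; `cj n b' = cj c b = b`).  `br_V(b)` is a block of `N(V) ∩ C(u)` (`FmgStmt`, second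
part), so by `K9.OrbStmt` (`N = N(V) ∩ C(u)`, `X = C(V)`) there is `m ∈ N(V) ∩ C(u)` with
`cj n γ = cj m γ`.  `t = m⁻¹ n ∈ T`, `t u' t⁻¹ = m⁻¹ u m = u`. -/
def FusStmt : Prop := ∀ (ℓ : ℕ) [Fact ℓ.Prime] (M : Ideal (integralClosure ℤ ℂ)) [M.IsMaximal],
  (ℓ : integralClosure ℤ ℂ) ∈ M → ∀ (G : Type) [Group G] [Finite G] (e : G → FF M)
  (V : Subgroup G) (γ : G → FF M), Ld ℓ e V γ → ∀ u ∈ V, ∀ u' ∈ V, ∀ b b', Lc e V γ u b →
  Lc e V γ u' b' → ∀ g : G, g * u' * g⁻¹ = u → cj g b' = b →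
    ∃ t ∈ Tg V γ, t * u' * t⁻¹ = u

/-- LCJ: conjugation.

Proof.  Transport of structure: `e` is a class function, `C(g V g⁻¹) = g C(V) g⁻¹`,
`T(g V g⁻¹, cj g γ) = g T g⁻¹`. -/
def LcjStmt : Prop := ∀ (ℓ : ℕ) [Fact ℓ.Prime] (F : Type) [Field F], GoodF ℓ F → ∀ (G : Type)
  [Group G] [Finite G] (e : G → F) (V : Subgroup G) (γ : G → F), Ld ℓ e V γ → ∀ g : G,
  Ld ℓ e (conjS g V) (cj g γ) ∧ ix (conjS g V) (cj g γ) = ix V γ

/-- GCH: change of `γ`.

Proof.  `br_V(e)` is a block of `N(V)` (`FmgStmt`), so `K9.OrbStmt` (`N = N(V)`, `X = C(V)`) gives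
`n ∈ N(V)` with `γ₁ = cj n γ`; LCJ. -/
def GchStmt : Prop := ∀ (ℓ : ℕ) [Fact ℓ.Prime] (M : Ideal (integralClosure ℤ ℂ)) [M.IsMaximal],
  (ℓ : integralClosure ℤ ℂ) ∈ M → ∀ (G : Type) [Group G] [Finite G] (e : G → FF M)
  (V : Subgroup G) (γ γ₁ : G → FF M), Ld ℓ e V γ → Ld ℓ e V γ₁ → ix V γ₁ = ix V γ

/-- RSV: the value of the central character at the sum of the conjugates of `w b`.

Proof.  This is the computation of `Helper97_K9/NZB.lean` (`nzr_core`) and `NZR.lean`, with the given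
`γ`: `(br_V z) γ = ∑_{S} (t w t⁻¹) γ`, `S` the orbit of `C(u)` under `T` in `G/C(u)`, with
`|T : T ∩ C(u)|` elements, and `t w t⁻¹ ∈ V` is central in `C(V)` and unipotent.  So
`(br_V z) γ = |S| γ + nilpotent`; `res M z χ` is the value at `z` of the central character of `e`,
which is the central character of `γ` at `br_V z` (`res` and `a ↦` residue of a character of `γ` at
`br_V a` are two characters of the centre of `F G` with value `1` at `e`: `H50.char_uniq`), so it is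
`|S|`. -/
def RsvStmt : Prop := ∀ (ℓ : ℕ) [Fact ℓ.Prime] (M : Ideal (integralClosure ℤ ℂ)) [M.IsMaximal],
  (ℓ : integralClosure ℤ ℂ) ∈ M → ∀ (G : Type) [Group G] [Finite G] (e : G → FF M)
  (V : Subgroup G) (γ : G → FF M), Ld ℓ e V γ → ∀ u ∈ V, ∀ b, Lc e V γ u b → ∀ χ ∈ IrrE M e,
    res M (trc (Cu u) u (fun t : Cu u => b t)) χ =
      (((Cu u).relIndex (Tg V γ) : ℕ) : FF M)

/-- NST: no pair `(y, b)` is conjugate to `(y ^ N, b)` if the inertial index is small.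

Proof.  Suppose `g y g⁻¹ = y ^ N` and `cj g b = b`.  By DUG (for `Q = ⟨y⟩`, `C(Q) = C(y)`) there is an
`ℓ`-subgroup `P ≤ C(y)` of order `|V|`, good for `b`, so good for `e`, so `P = k⁻¹ V k` for some `k`
(`FmgStmt`).  Replace `y, b, g` by `k y k⁻¹, cj k b, k g k⁻¹`: so we may assume `V ≤ C(y)`, `V` good
for `b`.  `⟨y⟩ V` is an `ℓ`-subgroup of `C(y)`, good for `b` (its centraliser in `C(y)` is `C(V) ∩
C(y)`), so `y ∈ V` by the maximality of `V`.  Let `γ₁` be a block of `C(V)` with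
`br_V(b) γ₁ = γ₁`; then `Ld ℓ e V γ₁`, `Lc e V γ₁ y b`, `Lc e V γ₁ (y ^ N) b` (LPW, `N` prime to
`ℓ`: `GN.ord` for `k = 1` or `GN.cop`), and FUS (`u = y ^ N`, `u' = y`, `b' = b`) gives
`t ∈ T₁ = Tg V γ₁` with `t y t⁻¹ = y ^ N`.  `|T₁ : C(V)| = ix V γ` (GCH).  Two of the cosets
`t ^ k C(V)`, `0 ≤ k ≤ ix V γ`, are equal, so `t ^ k ∈ C(V)` for some `1 ≤ k ≤ ix V γ`, and
`y = t ^ k y t ^ (-k) = y ^ N ^ k`, `N ^ k = 1` mod `ℓ`, against `GN.ord` (`k + 1 < ℓ`). -/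
def NstStmt : Prop := ∀ (ℓ : ℕ) [Fact ℓ.Prime] (M : Ideal (integralClosure ℤ ℂ)) [M.IsMaximal],
  (ℓ : integralClosure ℤ ℂ) ∈ M → ∀ (G : Type) [Group G] [Finite G] (N : ℕ), GN G ℓ N →
  ∀ (e : G → FF M) (V : Subgroup G) (γ : G → FF M), Ld ℓ e V γ → ix V γ + 1 < ℓ → ∀ y : G,
  y ≠ 1 → El ℓ y → ∀ b : G → FF M, Bx (Cu y) b →
  mulF (fun t : Cu y => e t) (fun t : Cu y => b t) = (fun t : Cu y => b t) →
  ∀ g : G, g * y * g⁻¹ = y ^ N → cj g b ≠ b

/-- DUG: the blocks of the centraliser of an `ℓ`-subgroup `Q` under the block `e` have defect groups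
of the same order (`V` abelian).

Proof.  As `Helper24_K9/Duc.lean` (`Q` of order `ℓ`, `|V| = ℓ ^ 2`).  Let `P` be a good `ℓ`-subgroup
of `g` of maximal order.  `Q P` is good for `g` (same centraliser in `C(Q)`), so `Q ≤ P`, `P ≤ C(Q)`
and `C(P) ≤ C(Q)`.  `P` is good for `e`, so `|P| ≤ |V|`, `P` is abelian (`FmgStmt`, `V` abelian).
Suppose `|P| < |V|`.  Let `g_P` be a block of `C(P)` with `br_P(g) g_P = g_P`, `f'` the sum of the
(different) `N(P)`-conjugates of `g_P`, a central idempotent of `F N(P)` with `br_P(e) f' = f'`, `f''`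
a block of `N(P)` with `f'' f' = f''`.  `DunStmt` (`Q := P`) gives a good `P₁ > P` for `f''`.  `P₁` is
good for `e`, so abelian, so `P₁ ≤ C(P)`.  `P₁` is good for `f'` (factor), and `br_{P₁}(f')` is the
sum of the `br_{P₁}` of the conjugates of `g_P` (`P₁ ≤ C(P)` fixes each of them), so `P₁` is good
for some conjugate, and a conjugate `P₂` of `P₁` under `N(P)`, `P < P₂ ≤ C(P)`, is good for `g_P`, so
for `g` (`g_P = br_P(g) g_P`): against the choice of `P`. -/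
def DugStmt : Prop := ∀ (ℓ : ℕ) [Fact ℓ.Prime] (M : Ideal (integralClosure ℤ ℂ)) [M.IsMaximal],
  (ℓ : integralClosure ℤ ℂ) ∈ M → ∀ (G : Type) [Group G] [Finite G] (e : G → FF M), IsBlk e →
  ∀ V : Subgroup G, Tp ℓ e V → (∀ a ∈ V, ∀ b ∈ V, a * b = b * a) → ∀ Q : Subgroup G,
  IsPGroup ℓ Q → ∀ g : G → FF M, Bx (Subgroup.centralizer (Q : Set G)) g →
  mulF (fun t : Subgroup.centralizer (Q : Set G) => e t)
    (fun t : Subgroup.centralizer (Q : Set G) => g t) =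
      (fun t : Subgroup.centralizer (Q : Set G) => g t) →
  ∃ P : Subgroup G, Q ≤ P ∧ P ≤ Subgroup.centralizer (Q : Set G) ∧ IsPGroup ℓ P ∧
    Nat.card P = Nat.card V ∧ Gd g P

/-! ## 7. Blocks of inertial index one -/

/-- CEN: blocks with a central defect group.

Proof (compare `Helper86_K9/CE0.lean`, a central subgroup of order `ℓ`).  `p : H → B = H/V`, `b' =
push p b` is a block (`CD2.PsbStmt`, `V` central; proved in part D2, see `K9.Asm`/`Helper66_D2`), all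
its good `ℓ`-subgroups are trivial (`K9.PugStmt`: a good subgroup of `b'` has a good preimage), so
`IrrE M b' = {κ₀}`, `κ₀` vanishes at the singular elements (`K9.DzoStmt`).  For `z ∈ V - 1` and
`s, s'` regular, `∑_{κ ∈ b} κ(s⁻¹) κ(z s') = 0` (`K9.WboStmt`, `z s'` is singular).  Summing over
`z ∈ V`, with the projection on the characters trivial on `V` (`K9.PsiStmt`), `∑_{κ ∈ b} κ(s⁻¹)
κ(s') = |V| κ₀(p s⁻¹) κ₀(p s')`.  So for coefficients `w` with `∑ w(s) κ₀(p s) = 0` also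
`∑ w(s) κ(s) = 0` for all `κ ∈ b`: `κ(s) = c_κ κ₀(p s)` for `s` regular, `c_κ = κ(1)/κ₀(1) > 0`, and
`∑_κ c_κ² = |V|`.  `c_κ` is an integer: `(κ(x ^ n), κ₀(p x))` is an integer (`K9.AdaStmt`, `n` from
`K9.PrtStmt`), it is `c_κ (κ₀, κ₀)` (`κ₀(p x) = 0` unless `x = z s`, and then `x ^ n = s`).  So
`c_κ ≥ 1`.  Orthogonality (`K9.PrgStmt`: `pr b` vanishes at the elements of `V - 1`): the vectors
`(κ(z))_{κ ∈ b}`, `z ∈ V`, are orthogonal of norm `σ = ∑ κ(1)² = |V| κ₀(1)²` (second orthogonality: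
`κ(z) conj κ(z') = κ(1) κ(z z'⁻¹)`), so by BES with `s = δ_κ`: `|V| κ(1)² ≤ σ`, `c_κ² ≤ 1`.  So
`c_κ = 1` for all `κ`, and the number of characters is `|V|`; `d = κ₀(1)`. -/
def CenStmt : Prop := ∀ (ℓ : ℕ) [Fact ℓ.Prime] (M : Ideal (integralClosure ℤ ℂ)) [M.IsMaximal],
  (ℓ : integralClosure ℤ ℂ) ∈ M → ∀ (H : Type) [Group H] [Finite H] (b : H → FF M), IsBlk b →
  ∀ V : Subgroup H, Tp ℓ b V → V ≤ Subgroup.center H →
  (∃ d, Dg M b d) ∧ (IrrE M b).ncard = Nat.card V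

/-- DGC: the characters of `γ` have the same degree.

Proof.  CEN for the group `C(V)`, the block `γ` and the central subgroup `V`: `V` is good for `γ`,
and a good `ℓ`-subgroup `Q` of `γ` is good for `e` (`br_V(e) γ = γ`; then `e ≠ 0` on
`C(V) ∩ C(Q)`), so `|Q| ≤ |V|`. -/
def DgcStmt : Prop := ∀ (ℓ : ℕ) [Fact ℓ.Prime] (M : Ideal (integralClosure ℤ ℂ)) [M.IsMaximal],
  (ℓ : integralClosure ℤ ℂ) ∈ M → ∀ (G : Type) [Group G] [Finite G] (e : G → FF M)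
  (V : Subgroup G) (γ : G → FF M), Ld ℓ e V γ →
  ∃ c, Dg M (fun t : Subgroup.centralizer (V : Set G) => γ t) c

/-- GSM: the sum over a set `S ⊆ V` stable under the powers prime to `ℓ`.

Proof.  Let `|V| = ℓ ^ a`, `a > 0` (if `V = 1` then `S` is empty or `{1}`; exclude by `1 ∉ S`), `ζ`
of order `ℓ ^ a`, `f(x) = |gv x (c x) κ / d x|²`.  For `j` prime to `ℓ` the map `x ↦ x ^ j` is a
bijection of `S`; so `φ(ℓ ^ a) ∑_{x ∈ S} f(x) = ∑_{x ∈ S} ∑_j f(x ^ j)`, `j` over the units below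
`ℓ ^ a`.  By LPW and the uniqueness in LOC, `c (x ^ j) = c x`, `C(x ^ j) = C(x)`, so
`d (x ^ j) = d x` (there is a character in the block) and `f(x ^ j) = |gv (C(x)) (x ^ j) (c x) κ /
d x|²`, which is `|∑ m_i ζ ^ (i j)|²` by INR.  It is not `0` for `j = 1` (`K9.NzStmt`; `V` is good
for `c x` by LSB), so GLP gives `∑_j f(x ^ j) ≥ φ(ℓ ^ a)`.  If the total is `|S|` all these are
equalities and `f(x) = 1` by GLP. -/
def GsmStmt : Prop := ∀ (ℓ : ℕ) [Fact ℓ.Prime] (M : Ideal (integralClosure ℤ ℂ)) [M.IsMaximal],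
  (ℓ : integralClosure ℤ ℂ) ∈ M → ∀ (H : Type) [Group H] [Finite H] (b : H → FF M)
  (V : Subgroup H) (γ : H → FF M), Ld ℓ b V γ → ∀ S : Finset H, (∀ x ∈ S, x ∈ V ∧ x ≠ 1) →
  (∀ x ∈ S, ∀ j : ℕ, ¬ ℓ ∣ j → x ^ j ∈ S) → ∀ (c : H → H → FF M) (d : H → ℕ),
  (∀ x ∈ S, Lc b V γ x (c x) ∧ Dg M (fun t : Cu x => c x t) (d x)) → ∀ κ ∈ IrrE M b,
  (S.card : ℝ) ≤ ∑ x ∈ S, Complex.normSq (gv M (Cu x) x (c x) κ / d x) ∧
  (∑ x ∈ S, Complex.normSq (gv M (Cu x) x (c x) κ / d x) = S.card →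
    ∀ x ∈ S, Complex.normSq (gv M (Cu x) x (c x) κ / d x) = 1)

/-- NIB: Bessel's inequality for a block of inertial index one.

Proof.  `S` is the set of the elements of `V` outside the centre, `Z` the set of the elements of
`V` in the centre of `H`.  Vectors in `ℂ ^ Irr(H)`: for `x ∈ S`: `χ ↦ gv (C(x)) x (c x) χ /
(d x √|V|)`; for `x ∈ Z`: `χ ↦ χ(x)/√σ` for `χ ∈ b` and `0` otherwise, `σ = ∑_{χ ∈ b} χ(1)²`.  They
are orthonormal: norm for `x ∈ S`: CO1 and the hypothesis on the number of characters in `c x`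
(`|V| (d x)²`).  `x ≠ x'` in `S`: CO2: if `g x' g⁻¹ = x` then `cj g (c x')` is a block of `C(x)`; if it
is `c x` then FUS gives `t ∈ T` with `t x' t⁻¹ = x`, and `T ≤ C(V)` (index one), so `x = x'`; so it is
orthogonal to `c x` (`Bx.dich`).  `x, x' ∈ Z`: `∑_{χ ∈ b} χ(x) conj χ(x') = ∑ χ(1) χ(x x'⁻¹)`, zero
for `x ≠ x'` since `pr b` vanishes at the singular elements (`K9.PrgStmt`).  `x ∈ Z`, `x' ∈ S`: the
inner product is a combination of `∑_{χ ∈ b} χ(1) χ(x (x' s)⁻¹)`, `s` regular in `C(x')` (`eh`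
vanishes at the singular elements), and `x (x' s)⁻¹` is singular.  BES with `c = 1`, `s = δ_κ`. -/
def NibStmt : Prop := ∀ (ℓ : ℕ) [Fact ℓ.Prime] (M : Ideal (integralClosure ℤ ℂ)) [M.IsMaximal],
  (ℓ : integralClosure ℤ ℂ) ∈ M → ∀ (H : Type) [Group H] [Finite H] (b : H → FF M)
  (V : Subgroup H) (γ : H → FF M), Ld ℓ b V γ → ix V γ = 1 → ∀ S Z : Finset H,
  (∀ x, x ∈ S ↔ x ∈ V ∧ x ∉ Subgroup.center H) → (∀ x, x ∈ Z ↔ x ∈ V ∧ x ∈ Subgroup.center H) →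
  ∀ (c : H → H → FF M) (d : H → ℕ),
  (∀ x ∈ S, Lc b V γ x (c x) ∧ Dg M (fun t : Cu x => c x t) (d x) ∧
    (IrrE M (fun t : Cu x => c x t)).ncard = Nat.card V) → ∀ κ ∈ IrrE M b,
  (∑ x ∈ S, Complex.normSq (gv M (Cu x) x (c x) κ / d x)) / Nat.card V +
    Z.card * Complex.normSq (κ 1) / (∑ᶠ χ ∈ IrrE M b, Complex.normSq (χ 1)) ≤ 1

/-- NIL: blocks with an abelian defect group and inertial index one.

Proof.  Induction on `|H|`.  If `V` is central: CEN (the last claim is empty).  Otherwise let `S`,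
`Z` be as in NIB, `S` not empty.  For `x ∈ S` choose `c x` (LOC); `C(x)` is smaller than `H`, the
inertial index of `c x` is one (LSB: `|T ∩ C(x) : C(V)|`), so by induction there is `d x`, and
`c x` has `|V|` characters.  Let `σ = ∑_{χ ∈ b} χ(1)²`, `k = |IrrE b|`, `f_x(κ) = |gv x (c x) κ/d x|²`.
NIB and GSM (`∑_x f_x(κ) ≥ |S| = |V| - |Z|`): `|Z| κ(1)²/σ ≤ |Z|/|V|`, so (1) `κ(1)² ≤ σ/|V|`; adding
over `κ ∈ b`, `|V| ≤ k`.  Adding GSM over `κ ∈ b`: `k |S| ≤ ∑_x ∑_κ f_x(κ) ≤ ∑_x |V| = |S| |V|` (CO1: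
the sum over all `χ` is `|V|`), so `k ≤ |V|`.  So `k = |V|`, all (1) are equalities: all `κ(1)` are
equal to `√(σ/|V|)`.  NIB now gives `∑_x f_x(κ) ≤ |V| - |Z| = |S|`, equality in GSM, `f_x(κ) = 1` for
`x ∈ S`.  (`c`, `d'` in the statement are `c x`, `d x` by uniqueness.) -/
def NilStmt : Prop := ∀ (ℓ : ℕ) [Fact ℓ.Prime] (M : Ideal (integralClosure ℤ ℂ)) [M.IsMaximal],
  (ℓ : integralClosure ℤ ℂ) ∈ M → ∀ (H : Type) [Group H] [Finite H] (b : H → FF M)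
  (V : Subgroup H) (γ : H → FF M), Ld ℓ b V γ → ix V γ = 1 →
  (∃ d, Dg M b d) ∧ (IrrE M b).ncard = Nat.card V ∧
  ∀ x ∈ V, x ∉ Subgroup.center H → ∀ c, Lc b V γ x c → ∀ d : ℕ, Dg M (fun t : Cu x => c t) d →
    ∀ κ ∈ IrrE M b, Complex.normSq (gv M (Cu x) x c κ / d) = 1

/-- NIT: the degrees modulo `ℓ`.

Proof.  Induction on `|H|`.  If `V ≤ Z(H)` then `C(V) = H`, `γ = b` (as `br_V b = b`), `c = d`, the
number is `1`.  Otherwise let `x ∈ V - Z(H)`, `b_x` its local block (LOC), `d_x` its degree (NIL,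
LSB), `κ ∈ b`.  By induction (LSB) `r₁ = |C(x)| c/(|C(V)| d_x)` has residue `±1`.  `v = gv x b_x
κ/d_x = ∑ m_i ζ ^ i` (INR, `j = 1`), `v conj v = 1` (NIL), both are algebraic integers with residue
`n = ∑ m_i` (`ζ` has residue `1`, `ζ` of order `|V|`): so `n² = 1`, the residue of `v` is `±1`.
By `K9.OmgStmt` and RSV, `|H| v d_x/(|C(x)| d)` has residue `|T : T ∩ C(x)| = 1` (index one), so
`r₂ = |H| d_x/(|C(x)| d) = (that)·conj v` is in `RM M` with residue `±1`.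
`|H| c/(|C(V)| d) = r₁ r₂`. -/
def NitStmt : Prop := ∀ (ℓ : ℕ) [Fact ℓ.Prime] (M : Ideal (integralClosure ℤ ℂ)) [M.IsMaximal],
  (ℓ : integralClosure ℤ ℂ) ∈ M → ∀ (H : Type) [Group H] [Finite H] (b : H → FF M)
  (V : Subgroup H) (γ : H → FF M), Ld ℓ b V γ → ix V γ = 1 → ∀ d c : ℕ, Dg M b d →
  Dg M (fun t : Subgroup.centralizer (V : Set H) => γ t) c →
  ∃ ε : ℤ, (ε = 1 ∨ ε = -1) ∧
    ((Nat.card H * c : ℂ) / (Nat.card (Subgroup.centralizer (V : Set H)) * d)) ∈ RM M ∧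
    rr M ((Nat.card H * c : ℂ) / (Nat.card (Subgroup.centralizer (V : Set H)) * d)) = (ε : FF M)

/-! ## 8. Regular elements -/

/-- RGL: the local blocks of the regular elements.

Proof.  The inertial index of the local block is `|T ∩ C(u) : C(V)| = 1` (LSB, `Rg`); NIL, LOC. -/
def RglStmt : Prop := ∀ (ℓ : ℕ) [Fact ℓ.Prime] (M : Ideal (integralClosure ℤ ℂ)) [M.IsMaximal],
  (ℓ : integralClosure ℤ ℂ) ∈ M → ∀ (G : Type) [Group G] [Finite G] (e : G → FF M)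
  (V : Subgroup G) (γ : G → FF M), Ld ℓ e V γ → ∀ u : G, Rg V γ u →
  ∃ (b : G → FF M) (d : ℕ), Lc e V γ u b ∧ Dg M (fun t : Cu u => b t) d ∧
    (IrrE M (fun t : Cu u => b t)).ncard = Nat.card V ∧
    ix (V.subgroupOf (Cu u)) (fun t : Cu u => γ t) = 1

/-- CGR: the congruence for one regular element.

Proof.  By `K9.OmgStmt` and RSV, `|G| gv u b χ/(|C(u)| χ(1))` is in `RM M` with residue
`|T : T ∩ C(u)| = |T : C(V)|` (`C(V) ≤ T ∩ C(u) ≤ C(V)`).  By NIT for `C(u)`, `b` (RGL, LSB),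
`|C(u)| c/(|C(V)| d)` is in `RM M` with residue `ε`.  Multiply. -/
def CgrStmt : Prop := ∀ (ℓ : ℕ) [Fact ℓ.Prime] (M : Ideal (integralClosure ℤ ℂ)) [M.IsMaximal],
  (ℓ : integralClosure ℤ ℂ) ∈ M → ∀ (G : Type) [Group G] [Finite G] (e : G → FF M)
  (V : Subgroup G) (γ : G → FF M), Ld ℓ e V γ → ∀ c : ℕ,
  Dg M (fun t : Subgroup.centralizer (V : Set G) => γ t) c → ∀ u : G, Rg V γ u → ∀ b,
  Lc e V γ u b → ∀ d : ℕ, Dg M (fun t : Cu u => b t) d → ∃ ε : ℤ, (ε = 1 ∨ ε = -1) ∧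
  ∀ χ ∈ IrrE M e,
    (gv M (Cu u) u b χ / d * ((Nat.card G * c : ℂ) /
      (Nat.card (Subgroup.centralizer (V : Set G)) * χ 1))) ∈ RM M ∧
    rr M (gv M (Cu u) u b χ / d * ((Nat.card G * c : ℂ) /
      (Nat.card (Subgroup.centralizer (V : Set G)) * χ 1))) = ((ε * ix V γ : ℤ) : FF M)

/-- CGZ: the congruences between the integers of two regular elements.

Proof.  `c` from DGC, `ε u` from CGR (for the local block and degree, unique).  Let `ρ` be the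
number `|G| c/(|C(V)| χ(1))`, `v = z`, `v' = z'`.  `v ρ` and `v' ρ` are in `RM M` with residues
`ε u ix`, `ε u' ix`, and `ix` is not `0` in `FF M` (`K9.InxStmt`).  So `v ρ` is a unit of `RM M`, and
`v'/v = v' ρ/(v ρ)` has residue `ε u ε u'`, `ε u v - ε u' v' = v (ε u - ε u' v'/v)` has residue
`v · 0 = 0`.  It is an integer, so divisible by `ℓ` (`KF.dvd_of_rr`). -/
def CgzStmt : Prop := ∀ (ℓ : ℕ) [Fact ℓ.Prime] (M : Ideal (integralClosure ℤ ℂ)) [M.IsMaximal],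
  (ℓ : integralClosure ℤ ℂ) ∈ M → ∀ (G : Type) [Group G] [Finite G] (e : G → FF M)
  (V : Subgroup G) (γ : G → FF M), Ld ℓ e V γ → ∃ ε : G → ℤ, (∀ u, ε u = 1 ∨ ε u = -1) ∧
  ∀ u u', Rg V γ u → Rg V γ u' → ∀ b b', Lc e V γ u b → Lc e V γ u' b' → ∀ d d' : ℕ,
  Dg M (fun t : Cu u => b t) d → Dg M (fun t : Cu u' => b' t) d' → ∀ χ ∈ IrrE M e,
  ∀ z z' : ℤ, gv M (Cu u) u b χ = d * z → gv M (Cu u') u' b' χ = d' * z' →
    (ℓ : ℤ) ∣ ε u * z - ε u' * z'

/-- BRG: Bessel's inequality for the regular elements.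

Proof.  Vectors `v u = (gv u (b u) χ/d u)_χ`, `χ ∈ Irr(G)`, `u` regular.  Norm squared `|V|` (CO1,
RGL).  If `u, u'` are not conjugate under `T` they are orthogonal (CO2, FUS, `Bx.dich`: as in NIB).
Otherwise the inner product is at most `|V|` in absolute value (Cauchy-Schwarz).  For given `u`
the number of the `u' = t⁻¹ u t`, `t ∈ T`, is at most `|T : C(V)|` (`u'` depends on the coset
`C(V) t` only).  So the row sums of the Gram matrix are at most `ix V γ · |V|`; BES. -/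
def BrgStmt : Prop := ∀ (ℓ : ℕ) [Fact ℓ.Prime] (M : Ideal (integralClosure ℤ ℂ)) [M.IsMaximal],
  (ℓ : integralClosure ℤ ℂ) ∈ M → ∀ (G : Type) [Group G] [Finite G] (e : G → FF M)
  (V : Subgroup G) (γ : G → FF M), Ld ℓ e V γ → ∀ R : Finset G, (∀ u, u ∈ R ↔ Rg V γ u) →
  ∀ (b : G → G → FF M) (d : G → ℕ),
  (∀ u ∈ R, Lc e V γ u (b u) ∧ Dg M (fun t : Cu u => b u t) (d u)) → ∀ s : (G → ℂ) → ℂ,
  ∑ u ∈ R, Complex.normSq (∑ᶠ χ ∈ Irr G, s χ * (gv M (Cu u) u (b u) χ / d u)) ≤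
    (ix V γ * Nat.card V : ℕ) * ∑ᶠ χ ∈ Irr G, Complex.normSq (s χ)

/-- CNT: the number of the regular elements.

Proof.  Put `T = Tg V γ`, `E = ix V γ`, `n` the number.  An element `u ≠ 1` of `V` is not regular iff
some `t ∈ T - C(V)` commutes with `u`; this depends only on the coset `t C(V)` and for given `t` the
elements of `V` commuting with `t` form a proper subgroup, with at most `|V|/ℓ - 1` elements `≠ 1`.
So `n ≥ |V| - 1 - (E - 1)(|V|/ℓ - 1)`, `ℓ n ≥ |V| (ℓ - E + 1) + ℓ (E - 2)`, and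
`ℓ n - 2 E |V| ≥ |V| (ℓ - 3 E + 1) + ℓ (E - 2) > 0`: for `E ≥ 2` clear, for `E = 1` it is at least
`ℓ (ℓ - 2) - ℓ > 0` (`|V| ≥ ℓ ≥ 5`). -/
def CntStmt : Prop := ∀ (ℓ : ℕ) [Fact ℓ.Prime] (F : Type) [Field F], GoodF ℓ F → ∀ (G : Type)
  [Group G] [Finite G] (e : G → F) (V : Subgroup G) (γ : G → F), Ld ℓ e V γ → V ≠ ⊥ → 5 ≤ ℓ →
  3 * ix V γ ≤ ℓ → 2 * (ix V γ * Nat.card V) < ℓ * {u | Rg V γ u}.ncard

/-- LBE: the bound for the number of modular characters.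

Proof.  `N` from PRM.  `R = {χ ∈ IrrE M e | χ ∘ (· ^ N) = χ}`.  `|R| = ln e`: FIX (with NST,
`ix V γ + 1 < ℓ`) and LRK.  For `u` regular let `b u`, `d u` be as in RGL.  For `χ ∈ R` there are
integers `z χ u` with `gv u (b u) χ = d u · z χ u` (RIN), not zero (`K9.NzStmt`, `V` is good for `b
u` by LSB); `a χ u = ε u · z χ u` with `ε` from CGZ: `ℓ ∣ a χ u - a χ u'`.  BRG with `s` supported on
`R`, integral (and `ε u ² = 1`): `∑_u (∑_{χ ∈ R} s χ a χ u)² ≤ K ∑ s²`, `K = ix V γ · |V|`.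
CNT: `2 K < ℓ n`, `n` the number of the regular elements.  ARI: `|R| n ≤ K`, so
`2 |R| n ≤ 2 K < ℓ n` and `2 |R| < ℓ`. -/
def LbeStmt : Prop := ∀ (ℓ : ℕ) [Fact ℓ.Prime] (M : Ideal (integralClosure ℤ ℂ)) [M.IsMaximal],
  (ℓ : integralClosure ℤ ℂ) ∈ M → ∀ (G : Type) [Group G] [Finite G] (e : G → FF M)
  (V : Subgroup G) (γ : G → FF M), Ld ℓ e V γ → V ≠ ⊥ → 5 ≤ ℓ → 3 * ix V γ ≤ ℓ →
  2 * ln e < ℓ

end Pool.Agent.PP.T3
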